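import Pool.Agent.J4H64.MN.Def

set_option autoImplicit false

/-! Assembly of the parametric statement. -/

namespace Pool.Agent.J4H64.MN

open Finset Filter Pool.Agent.H560R2 Pool.Agent.H520R2 Pool.Agent.J4H64.MC

theorem t_NASM : S_NASM := by
  classical
  intro hR hA hN hE k μ n e M c B hk hμ he hc hB hM hcond hn
  by_cases hce : 4 ^ e < 4 * c
  · refine ⟨Unit, inferInstance, inferInstance, fun _ _ => false, ?_⟩
    intro C _ h
    exfalso
    have : 4 * c * 1 ≤ 4 * c * ((C.m + 1) * (C.m + Fintype.card (Clause n k) + 2) + 1) :=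
      Nat.mul_le_mul_left _ (by omega)
    omega
  push Not at hce
  have hkμ : 1 ≤ k * μ := Nat.mul_pos (by omega) hμ
  set q : ℕ := k * μ with hq
  have h2q : q < 2 ^ q := Nat.lt_two_pow_self
  have hqe : q * e ≥ 1 := Nat.mul_pos hkμ he
  have h1 : e ≤ q * e := by
    calc e = 1 * e := (one_mul e).symm
      _ ≤ q * e := Nat.mul_le_mul_right _ hkμ
  have h2 : q * e ≤ q * q * e := by
    calc q * e = 1 * (q * e) := (one_mul _).symm
      _ ≤ q * (q * e) := Nat.mul_le_mul_right _ hkμ
      _ = q * q * e := by ring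
  have h3 : q * q * e ≤ q * q * e * c := Nat.le_mul_of_pos_right _ hc
  have h1c : e * c ≤ q * q * e * c := Nat.mul_le_mul_right _ (h1.trans h2)
  have h2c : q * e * c ≤ q * q * e * c := Nat.mul_le_mul_right _ h2
  have hcond' : 8192 * (q * q * e * c) + 1 ≤ 2 ^ q := by
    have : 8192 * q ^ 2 * e * c = 8192 * (q * q * e * c) := by ring
    omega
  set m : ℕ := 2 ^ q with hm
  obtain ⟨R, hRi⟩ := hR (Fin m × Fin k × Fin μ) (2 * q + 2) (m - 1) (by omega) (by
    simp only [Fintype.card_prod, Fintype.card_fin]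
    rw [← hq]
    have h1 : 2 ^ (2 * q + 2) = 4 * (m * m) := by
      rw [hm]; ring
    rw [h1]
    exact Nat.mul_le_mul_left _ (Nat.mul_le_mul_left _ h2q.le))
  obtain ⟨E, hE1, hE2, hE3⟩ := hE k μ m (2 * q + 2) (m - 1) n M R hk (by
    rw [← hq]
    refine le_trans (Nat.mul_le_mul_left _ ?_) hn
    refine Nat.add_le_add (Nat.add_le_add (Nat.sub_le _ _) ?_) le_rfl
    exact le_of_eq (by ring))
  obtain ⟨Pt, Ng, iP, nP, iN, nN, pos, neg, hpos, hneg, hadv⟩ :=
    hA k μ m (2 * q + 2) (m - 1) e (2 * q + 1) c R hRi he (by omega) hμ (by omega) hc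
    (by omega) (by
      rw [← hq]
      have h1 : 16 * ((2 * q + 2) * (q * e)) = 32 * (q * q * e) + 32 * (q * e) := by ring
      omega) (by
      rw [← hq, ← hm]
      have h1 : 2 ^ (2 * q + 1) = 2 * (m * m) := by
        rw [hm]; ring
      have h2 : 1 ≤ m * m := Nat.mul_pos (by omega) (by omega)
      omega) (by
      rw [← hq, ← hm]
      have h1 : 512 * (2 * q + 1 + 1) * (2 * q + 1) * e * c =
          2048 * (q * q * e * c) + 3072 * (q * e * c) + 1024 * (e * c) := by ring
      omega)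
  set S : ℕ := 4 ^ e / (4 * c) - 1 with hS
  have hc4 : 0 < 4 * c := by omega
  have hS1 : S + 1 = 4 ^ e / (4 * c) := by
    have : 1 ≤ 4 ^ e / (4 * c) := (Nat.one_le_div_iff hc4).mpr hce
    omega
  have hMpos : 0 < M := by
    have : 0 < c * (2 * B) := Nat.mul_pos hc (by omega)
    omega
  have hbase : ∀ (z : Fin M → Set (Pnt k μ m)) (J : Fin M), ∀ b ∈ blockBase E z J,
      ∃ T : Finset (Pnt k μ m), T.card ≤ e ∧ LeafOn T (fun x => b x = true) := by
    rintro z J h ⟨b, hb, rfl⟩
    rcases hb with ⟨b0, rfl⟩ | ⟨i, rfl⟩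
    · exact ⟨∅, by simp, fun x y _ h => h⟩
    · rcases hE1 i with h0 | ⟨j, T, hT, h0⟩
      · refine ⟨∅, by simp, fun x y _ h => ?_⟩
        simp only at h ⊢
        rw [h0 _ (Function.update z J x)]
        exact h
      · by_cases hj : j = J
        · subst hj
          refine ⟨T, hT.trans he, fun x y hxy h => ?_⟩
          simp only at h ⊢
          refine h0 _ _ (fun p hp hpx => ?_) h
          rw [Function.update_self] at hpx ⊢
          exact hxy p hp hpx
        · refine ⟨∅, by simp, fun x y hxy h => ?_⟩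
          simp only at h ⊢
          refine h0 _ _ (fun p hp hpx => ?_) h
          rw [Function.update_of_ne hj] at hpx ⊢
          exact hpx
  obtain ⟨Λ, iΛ, nΛ, D, hD⟩ := hard_dist (ι := Clause n k) (α := Pnt k μ m) (Pt := Pt)
    (Ng := Ng) M hMpos pos neg c S E hE2 (fun Y => ¬ Has R Yᶜ) hpos
    (fun ω => not_not.mpr (hneg ω)) (by
      rw [not_not]
      exact ⟨fun _ => false, fun i => by simp⟩) (fun x => ¬ Sat x) hE3 (by
      intro z J g hg
      have := hadv (blockBase E z J) (hbase z J) S g hg (by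
        rw [hS1]
        exact Nat.mul_div_le _ _)
      convert this using 1)
  refine ⟨Λ, iΛ, nΛ, D, ?_⟩
  intro C hcost hsize
  obtain ⟨n', C', out, h4, h5, h6⟩ := hN (Clause n k) C B hcost
  have h7 := hD n' C' out (by
    refine h5.trans ?_
    have h8 : (C.m + 1) * (C.m + Fintype.card (Clause n k) + 2) + 1 ≤ 4 ^ e / (4 * c) := by
      rw [Nat.le_div_iff_mul_le hc4, mul_comm]
      exact hsize
    omega) ((Nat.mul_le_mul_left _ h6).trans hM)
  have h9 : (univ.filter (fun l => (out.eval (D l) (C'.vals (D l)) = true ↔ ¬ Sat (D l)))) =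
      univ.filter (fun l => (C.Acc (D l) ↔ Sat (D l))) := by
    apply Finset.filter_congr
    intro l _
    rw [h4, not_iff_not]
  rw [← h9]
  refine lt_of_eq_of_lt ?_ h7
  congr!

end Pool.Agent.J4H64.MN
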