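import Pool.Agent.J4H64.MN.Def

set_option autoImplicit false

/-! The worst case. -/

namespace Pool.Agent.J4H64.MN

open Finset Filter Pool.Agent.J4H64.MC

theorem t_COR : S_COR := by
  classical
  intro hF hC k hk
  obtain ⟨c, hc, h⟩ := hF k hk (1 / 4) (by norm_num)
  refine ⟨c, hc, fun η hη => ?_⟩
  filter_upwards [h η hη] with n hn C hCS
  have key : ∀ B : ℕ, 1 ≤ B → (B : ℝ) ≤ (n : ℝ) ^ η → C.NotCost B →
      (2 : ℝ) ^ (c * ((n : ℝ) / B) ^ ((k : ℝ) / (k + 1)) / Real.log n ^ 3) ≤ C.m := by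
    intro B hB hBn hcost
    by_contra hlt
    push Not at hlt
    obtain ⟨Λ, hΛ, hΛ', D, hD⟩ := hn B hB hBn
    have h1 := hD C hcost hlt
    have h2 : {l | C.Acc (D l) ↔ Sat (D l)} = Set.univ := by
      ext l
      simp [hCS (D l)]
    rw [h2, Set.ncard_univ, Nat.card_eq_fintype_card] at h1
    have h3 : (0 : ℝ) < Fintype.card Λ := by
      exact_mod_cast Fintype.card_pos
    linarith
  obtain ⟨h1, h2⟩ := hC (Clause n k) C
  constructor
  · intro hb
    have := key (2 ^ C.nots) Nat.one_le_two_pow (by push_cast; exact hb) h1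
    push_cast at this
    exact this
  · intro d hd hb
    have := key ((C.nots + 1) ^ d) (Nat.one_le_pow _ _ (by omega)) (by push_cast; exact hb)
      (h2 d hd)
    push_cast at this
    exact this

end Pool.Agent.J4H64.MN
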