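import Pool.Agent.J4H64.MN.Def

set_option autoImplicit false

/-! Costs of the NOT gates. -/

namespace Pool.Agent.J4H64.MN

open Finset Filter

theorem t_COST : S_COST := by
  classical
  intro I C
  constructor
  · refine ⟨fun j => j.val, ?_, ?_⟩
    · intro j i hi
      have hij : i < j := C.acyclic j i hi
      exact ⟨le_of_lt hij, fun _ => hij⟩
    · calc _ ≤ ∏ l ∈ univ.image (fun j : Fin C.m => j.val),
            2 ^ ((univ.filter (fun j : Fin C.m => C.kind j = 2 ∧ j.val = l)).card) := by
            apply Finset.prod_le_prod'
            intro l _
            exact Nat.lt_two_pow_self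
        _ = 2 ^ ∑ l ∈ univ.image (fun j : Fin C.m => j.val),
            (univ.filter (fun j : Fin C.m => C.kind j = 2 ∧ j.val = l)).card := by
            rw [Finset.prod_pow_eq_pow_sum]
        _ = 2 ^ C.nots := by
            congr 1
            unfold NCirc.nots
            rw [Finset.card_eq_sum_card_image (fun j : Fin C.m => j.val)
              (univ.filter (fun j : Fin C.m => C.kind j = 2))]
            symm
            apply Finset.sum_subset_zero_on_sdiff
            · intro l hl
              obtain ⟨j, -, rfl⟩ := mem_image.mp hl
              exact mem_image_of_mem _ (mem_univ j)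
            · intro l hl
              rw [Finset.mem_sdiff] at hl
              rw [card_eq_zero, filter_eq_empty_iff]
              rintro j - ⟨hj, rfl⟩
              exact hl.2 (mem_image_of_mem _ (mem_filter.mpr ⟨mem_univ j, hj⟩))
            · intro l _
              rw [Finset.filter_filter]
  · rintro d ⟨lvl, h1, h2⟩
    refine ⟨lvl, fun j i hi => ⟨(h2 j i hi).le, fun _ => h2 j i hi⟩, ?_⟩
    have hcard : (univ.image lvl).card ≤ d := by
      have : univ.image lvl ⊆ Finset.Icc 1 d := by
        intro l hl
        obtain ⟨j, -, rfl⟩ := mem_image.mp hl
        exact Finset.mem_Icc.mpr (h1 j)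
      simpa using card_le_card this
    calc _ ≤ ∏ _l ∈ univ.image lvl, (C.nots + 1) := by
          apply Finset.prod_le_prod'
          intro l _
          apply Nat.add_le_add_right
          apply card_le_card
          intro j hj
          rw [mem_filter] at hj ⊢
          exact ⟨hj.1, hj.2.1⟩
      _ = (C.nots + 1) ^ (univ.image lvl).card := by rw [Finset.prod_const]
      _ ≤ (C.nots + 1) ^ d := Nat.pow_le_pow_right (by omega) hcard

end Pool.Agent.J4H64.MN
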