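import Pool.Agent.J4H64.MC.Def
import Pool.Agent.H560R2.Av4

set_option autoImplicit false

/-! Circuits with few NOT gates for `k`-CNF-SAT: definitions and the statements of the pieces. -/

namespace Pool.Agent.J4H64.MN

open Finset Filter Pool.Agent.H560R2 Pool.Agent.H520R2 Pool.Agent.J4H64.MC

/-- A circuit in the format of the frozen statement: `m` gates, of kind OR (`0`), AND (`1`) or
NOT (`2`), with their sets of predecessors among the inputs `I` and among the earlier gates; `o` is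
the output gate. -/
structure NCirc (I : Type) where
  m : ℕ
  kind : Fin m → Fin 3
  predIn : Fin m → Finset I
  predG : Fin m → Finset (Fin m)
  o : Fin m
  acyclic : ∀ j : Fin m, ∀ k ∈ predG j, k < j

namespace NCirc

variable {I : Type} (C : NCirc I)

/-- `v` is the valuation of the gates on the input `x` (a gate of kind `2` with one predecessor is a
NOT gate; with more predecessors it is a NAND gate). -/
def Val (x : I → Bool) (v : Fin C.m → Bool) : Prop :=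
  ∀ j : Fin C.m,
    (C.kind j = 0 → (v j = true ↔
      ((∃ i ∈ C.predIn j, x i = true) ∨ ∃ k ∈ C.predG j, v k = true))) ∧
    (C.kind j = 1 → (v j = true ↔
      ((∀ i ∈ C.predIn j, x i = true) ∧ ∀ k ∈ C.predG j, v k = true))) ∧
    (C.kind j = 2 → (v j = true ↔
      ¬ ((∀ i ∈ C.predIn j, x i = true) ∧ ∀ k ∈ C.predG j, v k = true)))

/-- the circuit accepts the input -/
def Acc (x : I → Bool) : Prop := ∃ v : Fin C.m → Bool, C.Val x v ∧ v C.o = true

/-- The NOT gates can be put in layers (every path that ends in a NOT gate of the layer `l` comes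
from NOT gates of smaller layers) such that the product of the numbers `1 + w`, `w` the number of
NOT gates in a layer, is at most `B`. -/
def NotCost (B : ℕ) : Prop :=
  ∃ lvl : Fin C.m → ℕ,
    (∀ j, ∀ i ∈ C.predG j, lvl i ≤ lvl j ∧ (C.kind j = 2 → lvl i < lvl j)) ∧
    ∏ l ∈ univ.image lvl,
      ((univ.filter (fun j => C.kind j = 2 ∧ lvl j = l)).card + 1) ≤ B

end NCirc

/-- piece NBIN: a circuit for the negated function in the format of `H520R2.NM` -/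
def S_NBIN : Prop :=
  ∀ (I : Type) [Fintype I] (C : NCirc I) (B : ℕ), C.NotCost B →
    ∃ (n' : ℕ) (C' : NM.Circuit I n') (out : NM.Wire I n'),
      (∀ x, out.eval x (C'.vals x) = true ↔ ¬ C.Acc x) ∧
      C'.size + C'.fanins.sum ≤ (C.m + 1) * (C.m + Fintype.card I + 2) ∧
      (C'.fanins.map (· + 1)).prod ≤ 2 * B

open Classical in
/-- piece ADV: monotone programs do not tell unsatisfiable instances from satisfiable ones (uses
`spread_avg`; here the sets are the complements of those in `S_LOW`) -/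
def S_ADV : Prop :=
  ∀ (k μ m t K e lam c : ℕ) (R : Fin m × Fin k × Fin μ → Fin t → Fin K), Indep R →
    1 ≤ e → 1 ≤ k → 1 ≤ μ → 1 ≤ t → 1 ≤ c → K + 1 ≤ m → 16 * (t * (k * μ * e)) ≤ K →
    m * 2 ^ (k * μ) + 1 ≤ 2 ^ lam → 512 * (lam + 1) * lam * e * c ≤ 2 ^ (k * μ) →
    ∃ (Pt Ng : Type) (_ : Fintype Pt) (_ : Nonempty Pt) (_ : Fintype Ng) (_ : Nonempty Ng)
      (pos : Pt → Set (Pnt k μ m)) (neg : Ng → Set (Pnt k μ m)),
      (∀ p, ¬ Has R (pos p)ᶜ) ∧ (∀ ω, Has R (neg ω)ᶜ) ∧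
      ∀ (Bs : Set (Set (Pnt k μ m) → Bool)),
        (∀ b ∈ Bs, ∃ T : Finset (Pnt k μ m), T.card ≤ e ∧ LeafOn T (fun x => b x = true)) →
        ∀ (s : ℕ) (g : Set (Pnt k μ m) → Bool), MComp Bs s g → 4 * c * (s + 1) ≤ 4 ^ e →
          ((univ.filter (fun p => g (pos p) = true)).card : ℚ) * Fintype.card Ng * (2 * c) ≤
            ((univ.filter (fun ω => g (neg ω) = true)).card : ℚ) * Fintype.card Pt * (2 * c) +
              Fintype.card Ng * Fintype.card Pt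

/-- piece NENC: disjoint unions of `M` instances; here `y j` is the set of the points whose
clauses are present in the block `j` -/
def S_NENC : Prop :=
  ∀ (k μ m t K n M : ℕ) (R : Fin m × Fin k × Fin μ → Fin t → Fin K), 3 ≤ k →
    M * (K + m * (k * μ) * (t + 1) + m * (k * 2 ^ μ) * (μ + 1)) ≤ n →
    ∃ E : (Fin M → Set (Pnt k μ m)) → Clause n k → Bool,
      (∀ c, (∀ y y', E y c = E y' c) ∨ ∃ (j : Fin M) (T : Finset (Pnt k μ m)), T.card ≤ 1 ∧
        ∀ y y', (∀ p ∈ T, p ∈ y j → p ∈ y' j) → E y c = true → E y' c = true) ∧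
      (∀ y y', (∀ j, y j ⊆ y' j) → E y ≤ E y') ∧
      ∀ y, ¬ Sat (E y) ↔ ∃ j, ¬ Has R (y j)ᶜ

open Classical in
/-- the parametric statement -/
def S_NPAR : Prop :=
  ∀ (k μ n e M c B : ℕ), 3 ≤ k → 1 ≤ μ → 1 ≤ e → 1 ≤ c → 1 ≤ B → c * (2 * B) ≤ M →
    8192 * (k * μ) ^ 2 * e * c + 1 ≤ 2 ^ (k * μ) →
    M * (2 ^ (k * μ) + 2 ^ (k * μ) * (k * μ) * (2 * (k * μ) + 3) +
      2 ^ (k * μ) * (k * 2 ^ μ) * (μ + 1)) ≤ n →
    ∃ (Λ : Type) (_ : Fintype Λ) (_ : Nonempty Λ) (D : Λ → Clause n k → Bool),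
      ∀ C : NCirc (Clause n k), C.NotCost B →
        4 * c * ((C.m + 1) * (C.m + Fintype.card (Clause n k) + 2) + 1) ≤ 4 ^ e →
        2 * c * (univ.filter (fun l => (C.Acc (D l) ↔ Sat (D l)))).card <
          (c + 2) * Fintype.card Λ

/-- piece NASM (uses `hard_dist` of `H560R2.Av4`) -/
def S_NASM : Prop := S_ROWS → S_ADV → S_NBIN → S_NENC → S_NPAR

/-- the final statement -/
def S_NFIN : Prop :=
  ∀ k : ℕ, 3 ≤ k → ∀ γ : ℝ, 0 < γ → ∃ c : ℝ, 0 < c ∧ ∀ η : ℝ, η < 1 → ∀ᶠ n : ℕ in atTop,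
    ∀ B : ℕ, 1 ≤ B → (B : ℝ) ≤ (n : ℝ) ^ η →
    ∃ (Λ : Type) (_ : Fintype Λ) (_ : Nonempty Λ) (D : Λ → Clause n k → Bool),
      ∀ C : NCirc (Clause n k), C.NotCost B →
        (C.m : ℝ) < (2 : ℝ) ^ (c * ((n : ℝ) / B) ^ ((k : ℝ) / (k + 1)) / Real.log n ^ 3) →
        ({l | C.Acc (D l) ↔ Sat (D l)}.ncard : ℝ) < (1 / 2 + γ) * Fintype.card Λ

/-- piece NPFIN -/
def S_NPFIN : Prop := S_NPAR → S_NFIN

/-- every path has at most `d` gates -/
def NCirc.Depth {I : Type} (C : NCirc I) (d : ℕ) : Prop :=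
  ∃ lvl : Fin C.m → ℕ, (∀ j, 1 ≤ lvl j ∧ lvl j ≤ d) ∧ ∀ j, ∀ i ∈ C.predG j, lvl i < lvl j

/-- the number of NOT gates -/
def NCirc.nots {I : Type} (C : NCirc I) : ℕ := (univ.filter (fun j => C.kind j = 2)).card

/-- piece COST: the cost of circuits of depth `d`, and of circuits with few NOT gates -/
def S_COST : Prop :=
  ∀ (I : Type) (C : NCirc I), C.NotCost (2 ^ C.nots) ∧
    ∀ d : ℕ, C.Depth d → C.NotCost ((C.nots + 1) ^ d)

/-- the worst case, for circuits with few NOT gates and for circuits of depth `d` -/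
def S_NCOR : Prop :=
  ∀ k : ℕ, 3 ≤ k → ∃ c : ℝ, 0 < c ∧ ∀ η : ℝ, η < 1 → ∀ᶠ n : ℕ in atTop,
    ∀ C : NCirc (Clause n k), (∀ x, C.Acc x ↔ Sat x) →
      ((2 : ℝ) ^ C.nots ≤ (n : ℝ) ^ η →
        (2 : ℝ) ^ (c * ((n : ℝ) / 2 ^ C.nots) ^ ((k : ℝ) / (k + 1)) / Real.log n ^ 3) ≤ C.m) ∧
      ∀ d : ℕ, C.Depth d → ((C.nots : ℝ) + 1) ^ d ≤ (n : ℝ) ^ η →
        (2 : ℝ) ^ (c * ((n : ℝ) / ((C.nots : ℝ) + 1) ^ d) ^ ((k : ℝ) / (k + 1)) /
          Real.log n ^ 3) ≤ C.m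

/-- piece NCOR -/
def S_COR : Prop := S_NFIN → S_COST → S_NCOR

end Pool.Agent.J4H64.MN
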