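import Pool.Agent.J4H64.MN.Def
import Pool.Agent.J4H64.MC.Enc

set_option autoImplicit false

/-! Disjoint unions of instances. -/

namespace Pool.Agent.J4H64.MN

open Finset Filter Pool.Agent.H560R2 Pool.Agent.H520R2 Pool.Agent.J4H64.MC

section Enc

variable {k μ m t K n M : ℕ}

/-- the embedding of the literals of the block `j` -/
def emb (φ : Fin M × V k μ m t K ↪ Fin n) (j : Fin M) : V k μ m t K × Bool ↪ Fin n × Bool where
  toFun l := (φ (j, l.1), l.2)
  inj' l l' h := by
    simp only [Prod.mk.injEq] at h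
    have h1 := φ.injective h.1
    simp only [Prod.mk.injEq, true_and] at h1
    exact Prod.ext h1 h.2

/-- the literals of a clause of the block `j`, renamed -/
def mpb (φ : Fin M × V k μ m t K ↪ Fin n) (j : Fin M) (c : Finset (V k μ m t K × Bool)) :
    Finset (Fin n × Bool) := c.map (emb φ j)

theorem card_mpb (φ : Fin M × V k μ m t K ↪ Fin n) (j : Fin M)
    (c : Finset (V k μ m t K × Bool)) : (mpb φ j c).card = c.card := card_map _

theorem mpb_inj (hk : 1 ≤ k) (φ : Fin M × V k μ m t K ↪ Fin n) {j j' : Fin M}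
    {p p' : Pnt k μ m} (h : mpb φ j (gc p) = mpb φ j' (gc p')) : j = j' ∧ p = p' := by
  have hj : j = j' := by
    have h1 : ((ve (p.1, ⟨0, hk⟩, p.2 ⟨0, hk⟩) (Fin.last μ) : V k μ m t K), false) ∈
        gc (t := t) (K := K) p := mem_image_of_mem _ (mem_univ (⟨0, hk⟩ : Fin k))
    have h2 := Finset.mem_map_of_mem (emb φ j) h1
    change _ ∈ mpb φ j (gc p) at h2
    rw [h, mpb, Finset.mem_map] at h2
    obtain ⟨l, -, hl⟩ := h2
    have h3 := congrArg Prod.fst hl
    have h4 := φ.injective h3
    exact (congrArg Prod.fst h4).symm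
  subst hj
  exact ⟨rfl, gc_inj (t := t) (K := K) hk (Finset.map_injective _ h)⟩

open Classical in
/-- the indicator vector -/
noncomputable def EE (R : Fin m × Fin k × Fin μ → Fin t → Fin K)
    (φ : Fin M × V k μ m t K ↪ Fin n) (y : Fin M → Set (Pnt k μ m)) (c : Clause n k) : Bool :=
  decide ((∃ j c0, Base R c0 ∧ c.1 = mpb φ j c0) ∨ ∃ j p, p ∈ y j ∧ c.1 = mpb φ j (gc p))

theorem EE_iff (R : Fin m × Fin k × Fin μ → Fin t → Fin K)
    (φ : Fin M × V k μ m t K ↪ Fin n) (y : Fin M → Set (Pnt k μ m)) (c : Clause n k) :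
    EE R φ y c = true ↔
      ((∃ j c0, Base R c0 ∧ c.1 = mpb φ j c0) ∨ ∃ j p, p ∈ y j ∧ c.1 = mpb φ j (gc p)) := by
  simp only [EE, decide_eq_true_iff]

theorem t_NENC : S_NENC := by
  classical
  intro k μ m t K n M R hk hn
  have hcard : Fintype.card (Fin M × V k μ m t K) ≤ Fintype.card (Fin n) := by
    rw [Fintype.card_prod, card_V, Fintype.card_fin, Fintype.card_fin]; exact hn
  obtain ⟨φ⟩ := Function.Embedding.nonempty_of_card_le hcard
  refine ⟨EE R φ, ?_, ?_, ?_⟩
  · intro c
    by_cases hb : ∃ j c0, Base R c0 ∧ c.1 = mpb φ j c0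
    · left
      intro y y'
      rw [Bool.eq_iff_iff, EE_iff, EE_iff]
      exact ⟨fun _ => Or.inl hb, fun _ => Or.inl hb⟩
    · by_cases hp : ∃ j p, c.1 = mpb φ j (gc p)
      · obtain ⟨j, p, hp⟩ := hp
        right
        refine ⟨j, {p}, by simp, ?_⟩
        intro y y' hyy h
        rw [EE_iff] at h ⊢
        rcases h with h | ⟨j', p', hp', hc'⟩
        · exact absurd h hb
        · obtain ⟨rfl, rfl⟩ := mpb_inj (by omega) φ (hp.symm.trans hc')
          exact Or.inr ⟨j, p, hyy p (mem_singleton_self p) hp', hp⟩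
      · left
        intro y y'
        rw [Bool.eq_iff_iff, EE_iff, EE_iff]
        constructor
        · rintro (h | ⟨j, p, -, h⟩)
          · exact absurd h hb
          · exact absurd ⟨j, p, h⟩ hp
        · rintro (h | ⟨j, p, -, h⟩)
          · exact absurd h hb
          · exact absurd ⟨j, p, h⟩ hp
  · intro y y' hyy c
    rw [Bool.le_iff_imp, EE_iff, EE_iff]
    rintro (h | ⟨j, p, hp, hc⟩)
    · exact Or.inl h
    · exact Or.inr ⟨j, p, hyy j hp, hc⟩
  · intro y
    have key : Sat (EE R φ y) ↔ ∀ j, ∃ A, SatV R (y j)ᶜ A := by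
      constructor
      · rintro ⟨a, ha⟩ j
        have hget : ∀ c0 : Finset (V k μ m t K × Bool), (∃ l ∈ mpb φ j c0, a l.1 = l.2) →
            ∃ l ∈ c0, a (φ (j, l.1)) = l.2 := by
          rintro c0 ⟨l, hl, hl2⟩
          obtain ⟨l', hl', rfl⟩ := Finset.mem_map.mp hl
          exact ⟨l', hl', hl2⟩
        refine ⟨fun v => a (φ (j, v)), ?_, ?_⟩
        · intro c0 hc0
          apply hget
          have hc : (mpb φ j c0).card ≤ k := by
            rw [card_mpb]; exact card_base hk hc0
          refine ha ⟨mpb φ j c0, hc⟩ ?_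
          rw [EE_iff]
          exact Or.inl ⟨j, c0, hc0, rfl⟩
        · intro p hp
          apply hget
          have hc : (mpb φ j (gc p)).card ≤ k := by
            rw [card_mpb]; exact card_gc p
          refine ha ⟨mpb φ j (gc p), hc⟩ ?_
          rw [EE_iff]
          exact Or.inr ⟨j, p, by simpa using hp, rfl⟩
      · intro hA
        choose A hA1 hA2 using hA
        refine ⟨Function.extend φ (fun q => A q.1 q.2) (fun _ => false), ?_⟩
        have hput : ∀ (j : Fin M) (c0 : Finset (V k μ m t K × Bool)),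
            (∃ l ∈ c0, A j l.1 = l.2) →
            ∃ l ∈ mpb φ j c0, Function.extend φ (fun q => A q.1 q.2) (fun _ => false) l.1 =
              l.2 := by
          rintro j c0 ⟨l, hl, hl2⟩
          refine ⟨(φ (j, l.1), l.2), ?_, ?_⟩
          · rw [mpb, Finset.mem_map]
            exact ⟨l, hl, rfl⟩
          · rw [φ.injective.extend_apply]
            exact hl2
        intro c hc
        rw [EE_iff] at hc
        rcases hc with ⟨j, c0, hc0, hc1⟩ | ⟨j, p, hp, hc1⟩
        · rw [hc1]; exact hput j _ (hA1 j _ hc0)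
        · rw [hc1]; exact hput j _ (hA2 j _ (by simpa using hp))
    rw [key, not_forall]
    constructor
    · rintro ⟨j, hj⟩
      exact ⟨j, fun h => hj (sat_of_has h)⟩
    · rintro ⟨j, hj⟩
      exact ⟨j, fun ⟨A, hA⟩ => hj (has_of_sat hA)⟩

end Enc

end Pool.Agent.J4H64.MN
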