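import Pool.Agent.J4H55.MC.Few
import Pool.Agent.J4H55.MC.Rows
import Pool.Agent.J4H64.MN.Adv
import Pool.Agent.J4H64.MN.Asm
import Pool.Agent.J4H64.MN.Cor
import Pool.Agent.J4H64.MN.Cost
import Pool.Agent.J4H64.MN.Enc
import Pool.Agent.J4H68.MN.Npfin
import Pool.Agent.J4H72.MN.Nbin

/-!
Circuits of any depth with few NOT gates for `k`-CNF-SAT.

The circuits (`NCirc`, `Pool/Agent/J4H64/MN/Def.lean`) have AND and OR gates of unbounded fan-in and
NOT gates (even NAND gates); their inputs are the bits of the indicator vector of the set of clauses.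
`C.NotCost B`: the NOT gates can be put in layers with `w` gates such that the product of the
numbers `1 + w` is at most `B`.  (If the NOT gates are all at the inputs, or all at the same height,
then `B` is one more than their number.)

Proof: the method of approximation with robust sunflowers (library `Pool/Agent/H560R2/Av1.lean`)
shows that small monotone programs do not tell the `k`-CNFs of random sets of points from those of
the graphs of a sparse XOR generator; these are encoded in `k`-CNFs with few variables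
(`Pool/Agent/J4H64/MC/Enc.lean`).  Disjoint unions of such formulas are hard for circuits with few
NOT gates (library `Pool/Agent/H560R2/Av4.lean`: the values that enter the NOT gates change rarely
along a chain of inputs).
-/

set_option autoImplicit false

namespace Pool.Agent.J4H64.MN

open Filter Pool.Agent.J4H64.MC

theorem fewNotGates :
    (∀ k : ℕ, 3 ≤ k → ∀ γ : ℝ, 0 < γ → ∃ c : ℝ, 0 < c ∧ ∀ η : ℝ, η < 1 → ∀ᶠ n : ℕ in atTop,
      ∀ B : ℕ, 1 ≤ B → (B : ℝ) ≤ (n : ℝ) ^ η →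
      ∃ (Λ : Type) (_ : Fintype Λ) (_ : Nonempty Λ) (D : Λ → Clause n k → Bool),
        ∀ C : NCirc (Clause n k), C.NotCost B →
          (C.m : ℝ) < (2 : ℝ) ^ (c * ((n : ℝ) / B) ^ ((k : ℝ) / (k + 1)) / Real.log n ^ 3) →
          ({l | C.Acc (D l) ↔ Sat (D l)}.ncard : ℝ) < (1 / 2 + γ) * Fintype.card Λ) ∧
    (∀ k : ℕ, 3 ≤ k → ∃ c : ℝ, 0 < c ∧ ∀ η : ℝ, η < 1 → ∀ᶠ n : ℕ in atTop,
      ∀ C : NCirc (Clause n k), (∀ x, C.Acc x ↔ Sat x) →
        ((2 : ℝ) ^ C.nots ≤ (n : ℝ) ^ η →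
          (2 : ℝ) ^ (c * ((n : ℝ) / 2 ^ C.nots) ^ ((k : ℝ) / (k + 1)) / Real.log n ^ 3) ≤
            C.m) ∧
        ∀ d : ℕ, C.Depth d → ((C.nots : ℝ) + 1) ^ d ≤ (n : ℝ) ^ η →
          (2 : ℝ) ^ (c * ((n : ℝ) / ((C.nots : ℝ) + 1) ^ d) ^ ((k : ℝ) / (k + 1)) /
            Real.log n ^ 3) ≤ C.m) := by
  have h : S_NFIN := Pool.Agent.J4H68.MN.t_NPFIN (t_NASM
    (Pool.Agent.J4H55.MC.t_ROWS Pool.Agent.J4H55.MC.t_FEW) t_ADV
    Pool.Agent.J4H72.MN.t_NBIN t_NENC)
  exact ⟨h, t_COR h t_COST⟩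

end Pool.Agent.J4H64.MN
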